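import Mathlib
import Pool.Agent.R593.Rnd.Defs

/-!
# The sentence about null sets and eventual matching, and its forcing version
-/

set_option autoImplicit false

namespace Pool.Agent.R593.Eq

open Pool.Agent.TH773.PSet Pool.Agent.R593.Rnd

/-! ### The sentence -/

/-- The basic clopen set of all `x` in `2^ω` which extend the finite sequence `s`. -/
def cyl (s : List Bool) : Set (ℕ → Bool) := {x | ∀ i v, s[i]? = some v → x i = v}

/-- The sum of the measures of the basic clopen sets given by the members of `S`. -/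
noncomputable def wt (S : Finset (List Bool)) : ENNReal := ∑ s ∈ S, (2 : ENNReal)⁻¹ ^ s.length

/-- The `n`-th term of the sequence has weight at most `2^(-n)`. -/
def Small (c : ℕ → Finset (List Bool)) : Prop := ∀ n, wt (c n) ≤ (2 : ENNReal)⁻¹ ^ n

/-- For almost all `n` the real `x` extends no member of `c n`. -/
def Avoid (x : ℕ → Bool) (c : ℕ → Finset (List Bool)) : Prop :=
  ∃ N, ∀ n, N ≤ n → ∀ s ∈ c n, ∃ i v, s[i]? = some v ∧ x i ≠ v

/-- All values of `b` are positive, and the sum of all `1 / b j` is infinite. -/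
def Div (b : ℕ → ℕ) : Prop :=
  (∀ j, b j ≠ 0) ∧ ∀ M : ℕ, ∃ s : List ℕ, (M : ℝ) ≤ (s.map fun v : ℕ => (1 : ℝ) / v).sum ∧
    ∀ j v, s[j]? = some v → b j = v

/-- The sequence `a` gives a partition of `ω` into the finite intervals `[a n, a (n + 1))`. -/
def Part (a : ℕ → ℕ) : Prop := a 0 = 0 ∧ ∀ n, a n < a (n + 1)

/-- For almost all `n` there is `j` in `[a n, a (n + 1))` with `f j = h j`. -/
def Match (a h f : ℕ → ℕ) : Prop :=
  ∃ N, ∀ n, N ≤ n → ∃ j, a n ≤ j ∧ j < a (n + 1) ∧ f j = h j

/-- Some family of reals indexed by `K` is not null. -/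
def NonNull (K : Type) : Prop :=
  ∃ r : K → ℕ → Bool, ∀ c, Small c → ∃ k, Avoid (r k) c

/-- No family of null sets indexed by `K` covers the reals. -/
def NoCover (K : Type) : Prop :=
  ∀ c : K → ℕ → Finset (List Bool), (∀ k, Small (c k)) → ∃ x, ∀ k, Avoid x (c k)

/-- For every divergent `b`, every family of functions below `b` which is indexed by `K` is
bounded. -/
def AllBounded (K : Type) : Prop :=
  ∀ b, Div b → ∀ f : K → ℕ → ℕ, (∀ k j, f k j < b j) →
    ∃ a h, Part a ∧ (∀ j, h j < b j) ∧ ∀ k, Match a h (f k)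

/-- For every divergent `b` some family of bounds indexed by `K` is cofinal. -/
def Cofinal (K : Type) : Prop :=
  ∀ b, Div b → ∃ (a : ℕ → ℕ) (h : K → ℕ → ℕ), Part a ∧ (∀ k j, h k j < b j) ∧
    ∀ f, (∀ j, f j < b j) → ∃ k, Match a (h k) f

/-- The combinatorial sentence. -/
def Phi (K : Type) : Prop := NonNull K ∧ NoCover K ∧ AllBounded K ∧ Cofinal K

/-! ### The forcing version -/

section Forcing

variable {P : Type} [Preorder P]

/-- Forcing version of `Small`. -/
def SmallN (c : ℕ → Finset (List Bool) → Set P) : Set P :=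
  fall fun n => fall fun S => fall fun _ : ¬ wt S ≤ (2 : ENNReal)⁻¹ ^ n => fnot (meets (c n S))

/-- Forcing version of `Avoid`. -/
def AvoidN (x : ℕ → Bool → Set P) (c : ℕ → Finset (List Bool) → Set P) : Set P :=
  fex fun N : ℕ => fall fun n => fall fun _ : N ≤ n => fall fun S => fimp (meets (c n S))
    (fall fun s => fall fun _ : s ∈ S => fex fun i => fex fun v => fex fun _ : s[i]? = some v =>
      fnot (meets (x i v)))

/-- Forcing version of `Div`. -/
def DivN (b : ℕ → ℕ → Set P) : Set P :=
  fand (fall fun j => fnot (meets (b j 0)))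
    (fall fun M : ℕ => fex fun s : List ℕ =>
      fex fun _ : (M : ℝ) ≤ (s.map fun v : ℕ => (1 : ℝ) / v).sum =>
        fall fun j => fall fun v => fall fun _ : s[j]? = some v => meets (b j v))

/-- Forcing version of `Part`. -/
def PartN (a : ℕ → ℕ → Set P) : Set P :=
  fand (meets (a 0 0)) (fall fun n => fall fun u => fall fun u' => fall fun _ : ¬ u < u' =>
    fnot (fand (meets (a n u)) (meets (a (n + 1) u'))))

/-- Forcing version of: `f j < b j` for all `j`. -/
def LtN (f b : ℕ → ℕ → Set P) : Set P :=
  fall fun j => fall fun v => fall fun w => fall fun _ : ¬ v < w =>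
    fnot (fand (meets (f j v)) (meets (b j w)))

/-- Forcing version of `Match`. -/
def MatchN (a h f : ℕ → ℕ → Set P) : Set P :=
  fex fun N : ℕ => fall fun n => fall fun _ : N ≤ n =>
    fex fun j => fex fun u => fex fun u' => fex fun _ : u ≤ j ∧ j < u' =>
      fand (fand (meets (a n u)) (meets (a (n + 1) u')))
        (fex fun v => fand (meets (f j v)) (meets (h j v)))

variable (P) in
/-- Forcing version of `NonNull`. -/
def NonNullN (K : Type) : Set P :=
  fex fun r : K → ℕ → Bool → Set P => fand (fall fun k => IsFun (r k))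
    (fall fun c : ℕ → Finset (List Bool) → Set P => fimp (fand (IsFun c) (SmallN c))
      (fex fun k => AvoidN (r k) c))

variable (P) in
/-- Forcing version of `NoCover`. -/
def NoCoverN (K : Type) : Set P :=
  fall fun c : K → ℕ → Finset (List Bool) → Set P =>
    fimp (fall fun k => fand (IsFun (c k)) (SmallN (c k)))
      (fex fun x : ℕ → Bool → Set P => fand (IsFun x) (fall fun k => AvoidN x (c k)))

variable (P) in
/-- Forcing version of `AllBounded`. -/
def AllBoundedN (K : Type) : Set P :=
  fall fun b : ℕ → ℕ → Set P => fimp (fand (IsFun b) (DivN b))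
    (fall fun f : K → ℕ → ℕ → Set P => fimp (fall fun k => fand (IsFun (f k)) (LtN (f k) b))
      (fex fun a : ℕ → ℕ → Set P => fex fun h : ℕ → ℕ → Set P =>
        fand (fand (IsFun a) (PartN a)) (fand (fand (IsFun h) (LtN h b))
          (fall fun k => MatchN a h (f k)))))

variable (P) in
/-- Forcing version of `Cofinal`. -/
def CofinalN (K : Type) : Set P :=
  fall fun b : ℕ → ℕ → Set P => fimp (fand (IsFun b) (DivN b))
    (fex fun a : ℕ → ℕ → Set P => fex fun h : K → ℕ → ℕ → Set P =>
      fand (fand (IsFun a) (PartN a)) (fand (fall fun k => fand (IsFun (h k)) (LtN (h k) b))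
        (fall fun f : ℕ → ℕ → Set P => fimp (fand (IsFun f) (LtN f b))
          (fex fun k => MatchN a (h k) f))))

variable (P) in
/-- The translation of `Phi` into the forcing language. -/
def PhiHolds (K : Type) : Set P :=
  fand (NonNullN P K) (fand (NoCoverN P K) (fand (AllBoundedN P K) (CofinalN P K)))

end Forcing

end Pool.Agent.R593.Eq
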