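import Mathlib
import Pool.Agent.R593.Rnd.Basic
import Pool.Agent.R593.Eq.Sent

/-!
# Sentences which are represented by measurable properties below a condition
-/

set_option autoImplicit false
set_option linter.unusedSectionVars false

namespace Pool.Agent.R593.Eq

open MeasureTheory Set Filter Topology Pool.Agent.TH773.PSet Pool.Agent.R593.Rnd

universe u v w

section

variable {Ω : Type u} [MeasurableSpace Ω] {μ : Measure Ω}

/-- Below `p`, the sentence `φ` is represented by the property `Q`. -/
structure RpOn (p : Cond μ) (φ : Set (Cond μ)) (Q : Ω → Prop) : Prop where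
  meas : MeasurableSet {x | Q x}
  iff : ∀ q ≤ p, (q ∈ φ ↔ q ∈ AE μ {x | Q x})

variable {p : Cond μ}

theorem RpOn.mem {φ : Set (Cond μ)} {Q : Ω → Prop} (h : RpOn p φ Q) {q : Cond μ} (hq : q ≤ p) :
    q ∈ φ ↔ ∀ᵐ x ∂μ, x ∈ q.1 → Q x := by
  rw [h.iff q hq, mem_AE_iff]
  rfl

theorem RpOn.mono {φ : Set (Cond μ)} {Q : Ω → Prop} (h : RpOn p φ Q) {q : Cond μ} (hq : q ≤ p) :
    RpOn q φ Q := ⟨h.meas, fun r hr => h.iff r (hr.trans hq)⟩

theorem RpOn.congr {φ : Set (Cond μ)} {Q Q' : Ω → Prop} (h : RpOn p φ Q) (h' : ∀ x, Q x ↔ Q' x) :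
    RpOn p φ Q' := by
  have : Q = Q' := funext fun x => propext (h' x)
  rwa [← this]

theorem RpOn.not {φ : Set (Cond μ)} {Q : Ω → Prop} (h : RpOn p φ Q) :
    RpOn p (fnot φ) (fun x => ¬ Q x) := by
  refine ⟨h.meas.compl, fun q hq => ?_⟩
  have h1 : {x | ¬ Q x} = {x | Q x}ᶜ := rfl
  rw [h1, ← fnot_AE h.meas]
  constructor
  · intro h2 r hr h3
    exact h2 r hr ((h.iff r (hr.trans hq)).2 h3)
  · intro h2 r hr h3
    exact h2 r hr ((h.iff r (hr.trans hq)).1 h3)

theorem RpOn.and {φ ψ : Set (Cond μ)} {Q R : Ω → Prop} (h : RpOn p φ Q) (h' : RpOn p ψ R) :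
    RpOn p (fand φ ψ) (fun x => Q x ∧ R x) := by
  refine ⟨h.meas.inter h'.meas, fun q hq => ?_⟩
  have h1 : {x | Q x ∧ R x} = {x | Q x} ∩ {x | R x} := rfl
  rw [h1, ← fand_AE]
  exact and_congr (h.iff q hq) (h'.iff q hq)

theorem RpOn.all {ι : Sort v} [Countable ι] {φ : ι → Set (Cond μ)} {Q : ι → Ω → Prop}
    (h : ∀ i, RpOn p (φ i) (Q i)) : RpOn p (fall φ) (fun x => ∀ i, Q i x) := by
  have h1 : {x | ∀ i, Q i x} = ⋂ i, {x | Q i x} := by
    ext x
    simp
  refine ⟨?_, fun q hq => ?_⟩
  · rw [h1]
    exact MeasurableSet.iInter fun i => (h i).meas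
  · rw [h1, ← fall_AE]
    exact forall_congr' fun i => (h i).iff q hq

theorem RpOn.ex {ι : Sort v} [Countable ι] {φ : ι → Set (Cond μ)} {Q : ι → Ω → Prop}
    (h : ∀ i, RpOn p (φ i) (Q i)) : RpOn p (fex φ) (fun x => ∃ i, Q i x) :=
  (RpOn.not (RpOn.all fun i => (h i).not)).congr fun x => by
    simp

theorem RpOn.imp {φ ψ : Set (Cond μ)} {Q R : Ω → Prop} (h : RpOn p φ Q) (h' : RpOn p ψ R) :
    RpOn p (fimp φ ψ) (fun x => Q x → R x) :=
  (RpOn.not (h.and h'.not)).congr fun x => by
    simp

theorem RpOn.ae {E : Set Ω} (hE : MeasurableSet E) : RpOn p (meets (AE μ E)) (fun x => x ∈ E) := by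
  refine ⟨hE, fun q _ => ?_⟩
  rw [meets_AE hE]
  rfl

end

section Rnd

variable {I : Type}

/-- Names for functions are represented by random functions. -/
theorem exists_fun {Y : Type} [Countable Y] [Inhabited Y] (f : ℕ → Y → Set (Random I)) :
    ∃ (β : (I × ℕ → Bool) → ℕ → Y) (T : Set (I × ℕ)), T.Countable ∧
      (∀ n y, Dep T {x | β x n = y}) ∧
      ∀ p : Random I, p ∈ IsFun f → ∀ n y, RpOn p (meets (f n y)) (fun x => β x n = y) := by
  classical
  choose S hS hS' using fun n y => exists_meets (f n y)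
  obtain ⟨F, hF⟩ : ∃ F : ℕ → Y → Set (I × ℕ → Bool), ∀ n y, F n y = ⋃ j, S n y j :=
    ⟨_, fun _ _ => rfl⟩
  have hFm : ∀ n y, MeasurableSet (F n y) := fun n y => by
    rw [hF]
    exact MeasurableSet.iUnion fun j => measurable_S (hS n y) j
  have hf : ∀ n y, meets (f n y) = AE (coinProduct I) (F n y) := fun n y => by
    rw [hF]; exact hS' n y
  choose T0 hT0 hT0' using fun n y => exists_countable (hFm n y)
  let T : Set (I × ℕ) := ⋃ n, ⋃ y, T0 n y
  have hT : ∀ n y, Dep T (F n y) := fun n y =>
    (hT0' n y).mono ((subset_iUnion (T0 n) y).trans (subset_iUnion (fun n => ⋃ y, T0 n y) n))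
  let U : ℕ → Y → Set (I × ℕ → Bool) := fun n y => {x | x ∈ F n y ∧ ∀ y', y' ≠ y → x ∉ F n y'}
  have hU : ∀ n y, Dep T (U n y) := by
    intro n y
    have : U n y = F n y ∩ ⋂ y', ⋂ (_ : y' ≠ y), (F n y')ᶜ := by
      ext x
      simp [U]
    rw [this]
    exact (hT n y).inter (Dep.iInter fun y' => Dep.iInter fun _ => (hT n y').compl)
  let β : (I × ℕ → Bool) → ℕ → Y := fun x n => if h : ∃ y, x ∈ U n y then h.choose else default
  have hβU : ∀ x n y, x ∈ U n y → β x n = y := by
    intro x n y hx
    have hex : ∃ y, x ∈ U n y := ⟨y, hx⟩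
    have h1 : β x n = hex.choose := dif_pos hex
    rw [h1]
    by_contra hne
    exact hx.2 _ hne hex.choose_spec.1
  refine ⟨β, T, countable_iUnion fun n => countable_iUnion fun y => hT0 n y, ?_, ?_⟩
  · intro n y
    have : {x | β x n = y} = U n y ∪ (if y = default then (⋃ y', U n y')ᶜ else ∅) := by
      ext x
      simp only [mem_ofPred_eq, mem_union]
      constructor
      · intro hx
        by_cases hex : ∃ y, x ∈ U n y
        · left
          have h1 : β x n = hex.choose := dif_pos hex
          rw [← hx, h1]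
          exact hex.choose_spec
        · right
          have h1 : β x n = default := dif_neg hex
          rw [if_pos (hx.symm.trans h1)]
          simpa using hex
      · rintro (hx | hx)
        · exact hβU x n y hx
        · split_ifs at hx with hy
          · have hex : ¬ ∃ y, x ∈ U n y := by simpa using hx
            have h1 : β x n = default := dif_neg hex
            rw [h1, hy]
          · exact absurd hx (notMem_empty x)
    rw [this]
    have h2 : ∀ A B : Set (I × ℕ → Bool), Dep T A → Dep T B → Dep T (A ∪ B) := by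
      intro A B hA hB
      have h3 : A ∪ B = (Aᶜ ∩ Bᶜ)ᶜ := by rw [compl_inter, compl_compl, compl_compl]
      rw [h3]
      exact (hA.compl.inter hB.compl).compl
    refine h2 _ _ (hU n y) ?_
    split_ifs
    · exact (Dep.iUnion fun y' => hU n y').compl
    · exact dep_empty T
  · intro p hp n y
    have h1 : ∀ᵐ x ∂(coinProduct I), x ∈ p.1 → ∃ y, x ∈ F n y := by
      have h2 := hp.1 n
      simp only [hf] at h2
      rw [fex_AE (fun y => hFm n y), mem_AE_iff] at h2
      filter_upwards [h2] with x hx hxp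
      simpa using hx hxp
    have h2 : ∀ y y', y ≠ y' → ∀ᵐ x ∂(coinProduct I), x ∈ p.1 → ¬ (x ∈ F n y ∧ x ∈ F n y') := by
      intro y y' hne
      have h3 := hp.2 n y y' hne
      rw [hf, hf, fand_AE, fnot_AE ((hFm n y).inter (hFm n y')), mem_AE_iff] at h3
      filter_upwards [h3] with x hx hxp
      simpa using hx hxp
    have h4 : ∀ᵐ x ∂(coinProduct I), x ∈ p.1 → (x ∈ F n y ↔ β x n = y) := by
      have h3 : ∀ᵐ x ∂(coinProduct I), ∀ y y', y ≠ y' → x ∈ p.1 → ¬ (x ∈ F n y ∧ x ∈ F n y') := by
        rw [ae_all_iff]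
        intro y
        rw [ae_all_iff]
        intro y'
        by_cases hne : y = y'
        · exact ae_of_all _ fun x h => absurd hne h
        · exact (h2 y y' hne).mono fun x hx _ => hx
      filter_upwards [h1, h3] with x h5 h6 hxp
      obtain ⟨z, hz⟩ := h5 hxp
      have hzU : x ∈ U n z := ⟨hz, fun y' hy' h7 => h6 z y' (Ne.symm hy') hxp ⟨hz, h7⟩⟩
      rw [hβU x n z hzU]
      constructor
      · intro hy
        by_contra hne
        exact h6 z y hne hxp ⟨hz, hy⟩
      · intro h
        rw [← h]
        exact hz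
    have hmeas : MeasurableSet {x | β x n = y} := by
      have h5 : {x | β x n = y} = U n y ∪ (if y = default then (⋃ y', U n y')ᶜ else ∅) := by
        ext x
        simp only [mem_ofPred_eq, mem_union]
        constructor
        · intro hx
          by_cases hex : ∃ y, x ∈ U n y
          · left
            have h1 : β x n = hex.choose := dif_pos hex
            rw [← hx, h1]
            exact hex.choose_spec
          · right
            have h1 : β x n = default := dif_neg hex
            rw [if_pos (hx.symm.trans h1)]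
            simpa using hex
        · rintro (hx | hx)
          · exact hβU x n y hx
          · split_ifs at hx with hy
            · have hex : ¬ ∃ y, x ∈ U n y := by simpa using hx
              have h1 : β x n = default := dif_neg hex
              rw [h1, hy]
            · exact absurd hx (notMem_empty x)
      rw [h5]
      refine (hU n y).meas.union ?_
      split_ifs
      · exact (Dep.iUnion fun y' => hU n y').compl.meas
      · exact MeasurableSet.empty
    refine ⟨hmeas, fun q hq => ?_⟩
    rw [hf, mem_AE_iff, mem_AE_iff]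
    have hqp : ∀ᵐ x ∂(coinProduct I), x ∈ q.1 → x ∈ p.1 := by
      have := le_iff_AE.1 hq
      rwa [mem_AE_iff] at this
    constructor
    · intro h5
      filter_upwards [h4, h5, hqp] with x h6 h7 h8 h9
      exact (h6 (h8 h9)).1 (h7 h9)
    · intro h5
      filter_upwards [h4, h5, hqp] with x h6 h7 h8 h9
      exact (h6 (h8 h9)).2 (h7 h9)

/-- Many random functions depending on few coordinates, and a new coordinate. -/
theorem exists_new {T : Set (I × ℕ)} (hT : Cardinal.mk T < Cardinal.mk I) :
    ∃ i : I, ∀ t ∈ T, t.1 ≠ i := by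
  by_contra hcon
  push Not at hcon
  have h1 : Cardinal.mk I ≤ Cardinal.mk T := by
    choose f hf hf' using hcon
    refine Cardinal.mk_le_of_injective (f := fun i => (⟨f i, hf i⟩ : T)) ?_
    intro i i' h
    have h2 : f i = f i' := congrArg Subtype.val h
    rw [← hf' i, ← hf' i', h2]
  exact absurd hT (not_lt.2 h1)

end Rnd

end Pool.Agent.R593.Eq
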