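import Mathlib
import Pool.Agent.R593.Eq.Rp

/-!
# Measure computations
-/

set_option autoImplicit false
set_option linter.unusedSectionVars false

namespace Pool.Agent.R593.Eq

open MeasureTheory Set Filter Topology Pool.Agent.TH773.PSet Pool.Agent.R593.Rnd

variable {I : Type}

theorem ae_block {σ : ℕ → Type} [∀ n, Countable (σ n)] {T : Set (I × ℕ)} {i : I}
    (hi : ∀ t ∈ T, t.1 ≠ i) {G H : ∀ n, σ n → Set (I × ℕ → Bool)}
    (hG : ∀ n s, Dep T (G n s)) (hd : ∀ n, Pairwise (fun s s' => Disjoint (G n s) (G n s')))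
    (hH : ∀ n s, Dep {t : I × ℕ | t.1 = i} (H n s))
    (hμ : ∀ n s, (G n s).Nonempty → coinProduct I (H n s) ≤ (2 : ENNReal)⁻¹ ^ n) :
    ∀ᵐ x ∂(coinProduct I), ∀ᶠ n in atTop, ∀ s, ¬ (x ∈ G n s ∧ x ∈ H n s) := by
  have hTi : Disjoint T {t : I × ℕ | t.1 = i} :=
    Set.disjoint_left.2 fun t h1 h2 => hi t h1 h2
  let A : ℕ → Set (I × ℕ → Bool) := fun n => ⋃ s, G n s ∩ H n s
  have h1 : ∀ n, coinProduct I (A n) ≤ (2 : ENNReal)⁻¹ ^ n := by
    intro n
    calc coinProduct I (A n) ≤ ∑' s, coinProduct I (G n s ∩ H n s) := measure_iUnion_le _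
      _ ≤ ∑' s, coinProduct I (G n s) * (2 : ENNReal)⁻¹ ^ n := by
        refine ENNReal.tsum_le_tsum fun s => ?_
        rw [dep_indep hTi (hG n s) (hH n s)]
        rcases (G n s).eq_empty_or_nonempty with h | h
        · rw [h, measure_empty, zero_mul, zero_mul]
        · exact mul_le_mul' le_rfl (hμ n s h)
      _ = (∑' s, coinProduct I (G n s)) * (2 : ENNReal)⁻¹ ^ n := ENNReal.tsum_mul_right
      _ = coinProduct I (⋃ s, G n s) * (2 : ENNReal)⁻¹ ^ n := by
        rw [measure_iUnion (hd n) fun s => (hG n s).meas]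
      _ ≤ 1 * (2 : ENNReal)⁻¹ ^ n := mul_le_mul' prob_le_one le_rfl
      _ = _ := one_mul _
  have h2 : ∑' n, coinProduct I (A n) ≠ ⊤ :=
    ne_top_of_le_ne_top tsum_two (ENNReal.tsum_le_tsum h1)
  filter_upwards [ae_eventually_notMem h2] with x hx
  filter_upwards [hx] with n hn s hs
  exact hn (mem_iUnion.2 ⟨s, hs⟩)

/-- Finitely many bits of the `i`-th real are prescribed. -/
def Bits (i : I) (J : Finset ℕ) (v : ℕ → Bool) : Set (I × ℕ → Bool) := {x | ∀ j ∈ J, x (i, j) = v j}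

theorem dep_bit (i : I) (j : ℕ) (v : Bool) :
    Dep {t : I × ℕ | t = (i, j)} {x : I × ℕ → Bool | x (i, j) = v} := by
  cases v with
  | true => exact dep_coord rfl
  | false =>
    have h : {x : I × ℕ → Bool | x (i, j) = false} = {x : I × ℕ → Bool | x (i, j) = true}ᶜ := by
      ext x; simp
    rw [h]
    have h' : Dep {t : I × ℕ | t = (i, j)} {x : I × ℕ → Bool | x (i, j) = true} := dep_coord rfl
    exact h'.compl

theorem dep_bits (i : I) (J : Finset ℕ) (v : ℕ → Bool) :
    Dep {t : I × ℕ | t.1 = i ∧ t.2 ∈ J} (Bits i J v) := by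
  have : Bits i J v = ⋂ j : ℕ, ⋂ (_ : j ∈ J), {x : I × ℕ → Bool | x (i, j) = v j} := by
    ext x
    simp [Bits]
  rw [this]
  refine Dep.iInter fun j => Dep.iInter fun hj => (dep_bit i j (v j)).mono ?_
  rintro t rfl
  exact ⟨rfl, hj⟩

theorem measure_bits (i : I) (J : Finset ℕ) (v : ℕ → Bool) :
    coinProduct I (Bits i J v) = (2 : ENNReal)⁻¹ ^ J.card := by
  classical
  let s : Finset (I × ℕ) := J.image fun j => (i, j)
  have hs : Bits i J v = Set.pi s fun t => {v t.2} := by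
    ext x
    simp [Bits, s, Set.mem_pi]
  have hcard : s.card = J.card := by
    rw [Finset.card_image_of_injective]
    intro a b h
    exact congrArg Prod.snd h
  have hv : ∀ b : Bool, coin {b} = (2 : ENNReal)⁻¹ := by
    intro b
    cases b with
    | true => exact coin_true
    | false =>
      unfold coin
      simp [Measure.smul_apply, Measure.add_apply]
  rw [hs, coinProduct, Measure.infinitePi_pi _ fun _ _ => measurableSet_singleton _]
  simp only [hv, Finset.prod_const, hcard]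

/-- The real number `i` extends the finite sequence `s`. -/
def CylAt (i : I) (s : List Bool) : Set (I × ℕ → Bool) := {x | ∀ j v, s[j]? = some v → x (i, j) = v}

theorem cylAt_eq (i : I) (s : List Bool) :
    CylAt i s = Bits i (Finset.range s.length) (fun j => s.getD j false) := by
  ext x
  simp only [CylAt, Bits, mem_ofPred_eq, Finset.mem_range]
  constructor
  · intro h j hj
    have h1 : s[j]? = some s[j] := List.getElem?_eq_getElem hj
    rw [h j _ h1, List.getD_eq_getElem _ _ hj]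
  · intro h j v hv
    obtain ⟨hj, h1⟩ := List.getElem?_eq_some_iff.1 hv
    rw [h j hj, List.getD_eq_getElem _ _ hj, h1]

theorem avoid_ae {T : Set (I × ℕ)} {i : I} (hi : ∀ t ∈ T, t.1 ≠ i)
    {γ : (I × ℕ → Bool) → ℕ → Finset (List Bool)} (hγ : ∀ n S, Dep T {x | γ x n = S}) :
    ∀ᵐ x ∂(coinProduct I), Small (γ x) → Avoid (fun j => x (i, j)) (γ x) := by
  have h := ae_block (σ := fun _ => Finset (List Bool)) hi
    (G := fun n S => {x | γ x n = S ∧ wt S ≤ (2 : ENNReal)⁻¹ ^ n})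
    (H := fun n S => ⋃ s ∈ S, CylAt i s) ?_ ?_ ?_ ?_
  · filter_upwards [h] with x hx hs
    obtain ⟨N, hN⟩ := eventually_atTop.1 hx
    refine ⟨N, fun n hn s hsn => ?_⟩
    by_contra hcon
    push Not at hcon
    refine hN n hn (γ x n) ⟨⟨rfl, hs n⟩, ?_⟩
    exact mem_iUnion₂.2 ⟨s, hsn, hcon⟩
  · intro n S
    by_cases hw : wt S ≤ (2 : ENNReal)⁻¹ ^ n
    · have : {x | γ x n = S ∧ wt S ≤ (2 : ENNReal)⁻¹ ^ n} = {x | γ x n = S} := by
        ext x; simp [hw]
      rw [this]
      exact hγ n S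
    · have : {x | γ x n = S ∧ wt S ≤ (2 : ENNReal)⁻¹ ^ n} = ∅ := by
        ext x; simp [hw]
      rw [this]
      exact dep_empty T
  · intro n S S' hne
    refine Set.disjoint_left.2 ?_
    rintro x ⟨h1, _⟩ ⟨h2, _⟩
    exact hne (h1.symm.trans h2)
  · intro n S
    refine Dep.iUnion fun s => Dep.iUnion fun _ => ?_
    rw [cylAt_eq]
    refine (dep_bits i _ _).mono ?_
    rintro t ⟨h1, _⟩
    exact h1
  · rintro n S ⟨x, hx⟩
    calc coinProduct I (⋃ s ∈ S, CylAt i s) ≤ ∑ s ∈ S, coinProduct I (CylAt i s) :=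
          measure_biUnion_finset_le _ _
      _ = wt S := by
        unfold wt
        refine Finset.sum_congr rfl fun s _ => ?_
        rw [cylAt_eq, measure_bits, Finset.card_range]
      _ ≤ _ := hx.2

/-! ### Matching -/

/-- The bits of the `j`-th block of `y` spell the number `v` in `clog w` binary digits. -/
def Spell (w : ℕ) (y : ℕ → Bool) (j v : ℕ) : Prop :=
  ∀ l < Nat.clog 2 w, y (Nat.pair j l) = v.testBit l

theorem spell_unique {w : ℕ} {y : ℕ → Bool} {j v v' : ℕ} (hv : v < w) (hv' : v' < w)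
    (h : Spell w y j v) (h' : Spell w y j v') : v = v' := by
  apply Nat.eq_of_testBit_eq
  intro l
  by_cases hl : l < Nat.clog 2 w
  · rw [← h l hl, ← h' l hl]
  · have h1 : w ≤ 2 ^ Nat.clog 2 w := Nat.le_pow_clog (by norm_num) w
    have h2 : 2 ^ Nat.clog 2 w ≤ 2 ^ l := Nat.pow_le_pow_right (by norm_num) (not_lt.1 hl)
    rw [Nat.testBit_lt_two_pow (by omega), Nat.testBit_lt_two_pow (by omega)]

open Classical in
/-- The number below `w` which is given by the `j`-th block of bits of `y`. -/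
noncomputable def pick (w : ℕ) (y : ℕ → Bool) (j : ℕ) : ℕ :=
  if h : ∃ v, v < w ∧ Spell w y j v then h.choose else 0

theorem pick_eq {w : ℕ} {y : ℕ → Bool} {j v : ℕ} (hv : v < w) (h : Spell w y j v) :
    pick w y j = v := by
  have hex : ∃ v, v < w ∧ Spell w y j v := ⟨v, hv, h⟩
  unfold pick
  rw [dif_pos hex]
  exact spell_unique hex.choose_spec.1 hv hex.choose_spec.2 h

theorem pick_lt {w : ℕ} (hw : w ≠ 0) (y : ℕ → Bool) (j : ℕ) : pick w y j < w := by
  unfold pick
  split_ifs with h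
  · exact h.choose_spec.1
  · omega

theorem pick_iff {w : ℕ} {y : ℕ → Bool} {j v : ℕ} :
    pick w y j = v ↔ (v < w ∧ Spell w y j v) ∨ (v = 0 ∧ ∀ v', v' < w → ¬ Spell w y j v') := by
  constructor
  · intro h
    by_cases hex : ∃ v, v < w ∧ Spell w y j v
    · left
      obtain ⟨v', h1, h2⟩ := hex
      rw [pick_eq h1 h2] at h
      rw [← h]
      exact ⟨h1, h2⟩
    · right
      have h1 : pick w y j = 0 := dif_neg hex
      exact ⟨h.symm.trans h1, fun v' h2 h3 => hex ⟨v', h2, h3⟩⟩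
  · rintro (⟨h1, h2⟩ | ⟨h1, h2⟩)
    · exact pick_eq h1 h2
    · have hex : ¬ ∃ v, v < w ∧ Spell w y j v := by
        rintro ⟨v', h3, h4⟩
        exact h2 v' h3 h4
      rw [h1]
      exact dif_neg hex

theorem spellSet_eq (i : I) (w j v : ℕ) :
    {x : I × ℕ → Bool | Spell w (fun m => x (i, m)) j v} =
      Bits i ((Finset.range (Nat.clog 2 w)).image (Nat.pair j)) (fun m => v.testBit m.unpair.2) := by
  ext x
  simp only [Spell, Bits, mem_ofPred_eq, Finset.mem_image, Finset.mem_range,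
    forall_exists_index, and_imp, forall_apply_eq_imp_iff₂, Nat.unpair_pair]

theorem dep_spell (i : I) (w j v : ℕ) :
    Dep {t : I × ℕ | t.1 = i ∧ t.2.unpair.1 = j}
      {x : I × ℕ → Bool | Spell w (fun m => x (i, m)) j v} := by
  rw [spellSet_eq]
  refine (dep_bits i _ _).mono ?_
  rintro t ⟨h1, h2⟩
  obtain ⟨l, _, h3⟩ := Finset.mem_image.1 h2
  exact ⟨h1, by rw [← h3, Nat.unpair_pair]⟩

theorem measure_spell (i : I) (w j v : ℕ) :
    coinProduct I {x : I × ℕ → Bool | Spell w (fun m => x (i, m)) j v} =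
      (2 : ENNReal)⁻¹ ^ (Nat.clog 2 w) := by
  rw [spellSet_eq, measure_bits, Finset.card_image_of_injective, Finset.card_range]
  intro a b h
  exact (Nat.pair_eq_pair.1 h).2

theorem measurable_pick (i : I) (w j v : ℕ) :
    MeasurableSet {x : I × ℕ → Bool | pick w (fun m => x (i, m)) j = v} := by
  have : {x : I × ℕ → Bool | pick w (fun m => x (i, m)) j = v} =
      ((⋃ (_ : v < w), {x : I × ℕ → Bool | Spell w (fun m => x (i, m)) j v}) ∪
        ⋃ (_ : v = 0), ⋂ v', ⋂ (_ : v' < w),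
          {x : I × ℕ → Bool | Spell w (fun m => x (i, m)) j v'}ᶜ) := by
    ext x
    simp only [mem_ofPred_eq, pick_iff, mem_union, mem_iUnion, mem_iInter, mem_compl_iff,
      exists_prop]
  rw [this]
  refine (MeasurableSet.iUnion fun _ => (dep_spell i w j v).meas).union ?_
  exact MeasurableSet.iUnion fun _ => MeasurableSet.iInter fun v' => MeasurableSet.iInter fun _ =>
    (dep_spell i w j v').meas.compl

theorem measure_nospell (i : I) (s t : ℕ → ℕ) (J : Finset ℕ) :
    coinProduct I {x : I × ℕ → Bool | ∀ j ∈ J, ¬ Spell (s j) (fun m => x (i, m)) j (t j)} =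
      ∏ j ∈ J, (1 - (2 : ENNReal)⁻¹ ^ (Nat.clog 2 (s j))) := by
  classical
  have hdep : ∀ J : Finset ℕ, Dep {t : I × ℕ | t.1 = i ∧ t.2.unpair.1 ∈ J}
      {x : I × ℕ → Bool | ∀ j ∈ J, ¬ Spell (s j) (fun m => x (i, m)) j (t j)} := by
    intro J
    have : {x : I × ℕ → Bool | ∀ j ∈ J, ¬ Spell (s j) (fun m => x (i, m)) j (t j)} =
        ⋂ j : ℕ, ⋂ (_ : j ∈ J), {x : I × ℕ → Bool | Spell (s j) (fun m => x (i, m)) j (t j)}ᶜ := by
      ext x
      simp
    rw [this]
    refine Dep.iInter fun j => Dep.iInter fun hj => (Dep.mono ?_ (dep_spell i _ _ _)).compl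
    rintro t ⟨h1, h2⟩
    exact ⟨h1, h2 ▸ hj⟩
  induction J using Finset.induction_on with
  | empty => simp
  | insert k J hk ih =>
    have e : {x : I × ℕ → Bool | ∀ j ∈ insert k J, ¬ Spell (s j) (fun m => x (i, m)) j (t j)} =
        {x : I × ℕ → Bool | Spell (s k) (fun m => x (i, m)) k (t k)}ᶜ ∩
          {x : I × ℕ → Bool | ∀ j ∈ J, ¬ Spell (s j) (fun m => x (i, m)) j (t j)} := by
      ext x
      simp
    rw [e, dep_indep ?_ (dep_spell i _ _ _).compl (hdep J), ih, Finset.prod_insert hk,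
      prob_compl_eq_one_sub (dep_spell i _ _ _).meas, measure_spell]
    rw [Set.disjoint_left]
    rintro t ⟨_, h1⟩ ⟨_, h2⟩
    exact hk (h1 ▸ h2)

theorem prod_bound (s : ℕ → ℕ) (J : Finset ℕ) (n : ℕ) (hs : ∀ j ∈ J, s j ≠ 0)
    (h : (2 * n : ℝ) ≤ ∑ j ∈ J, (1 : ℝ) / s j) :
    ∏ j ∈ J, (1 - (2 : ENNReal)⁻¹ ^ (Nat.clog 2 (s j))) ≤ (2 : ENNReal)⁻¹ ^ n := by
  have h1 : ∀ l : ℕ, (1 - (2 : ENNReal)⁻¹ ^ l) = ENNReal.ofReal (1 - (1/2:ℝ) ^ l) := by
    intro l
    rw [ENNReal.ofReal_sub _ (by positivity), ENNReal.ofReal_one, ENNReal.ofReal_pow (by norm_num)]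
    congr 2
    rw [ENNReal.ofReal_div_of_pos (by norm_num)]
    simp
  have h2 : ((2 : ENNReal)⁻¹ ^ n) = ENNReal.ofReal ((1/2:ℝ) ^ n) := by
    rw [ENNReal.ofReal_pow (by norm_num)]
    congr 1
    rw [ENNReal.ofReal_div_of_pos (by norm_num)]
    simp
  simp only [h1]
  rw [h2, ← ENNReal.ofReal_prod_of_nonneg]
  · apply ENNReal.ofReal_le_ofReal
    calc ∏ j ∈ J, (1 - (1/2:ℝ) ^ (Nat.clog 2 (s j)))
        ≤ ∏ j ∈ J, Real.exp (-((1:ℝ) / s j / 2)) := by
          apply Finset.prod_le_prod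
          · intro j _
            have : (1/2:ℝ) ^ (Nat.clog 2 (s j)) ≤ 1 := pow_le_one₀ (by norm_num) (by norm_num)
            linarith
          · intro j hj
            have h3 : (1:ℝ) / s j / 2 ≤ (1/2:ℝ) ^ (Nat.clog 2 (s j)) := by
              have hsj := Nat.pos_of_ne_zero (hs j hj)
              have hsR : (0:ℝ) < s j := by exact_mod_cast hsj
              have h4 : 2 ^ (Nat.clog 2 (s j)) ≤ 2 * s j := by
                by_cases h5 : s j = 1
                · rw [h5]; simp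
                · have h6 : 1 < s j := by omega
                  have h7 := Nat.pow_pred_clog_lt_self (b := 2) (by norm_num) h6
                  have h8 : 0 < Nat.clog 2 (s j) := Nat.clog_pos (by norm_num) h6
                  obtain ⟨m, hm⟩ : ∃ m, Nat.clog 2 (s j) = m + 1 := ⟨_, (Nat.succ_pred_eq_of_pos h8).symm⟩
                  rw [hm] at h7 ⊢
                  simp only [Nat.pred_eq_sub_one, Nat.add_sub_cancel] at h7
                  rw [pow_succ]
                  omega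
              have h5 : ((2:ℝ) ^ (Nat.clog 2 (s j))) ≤ 2 * s j := by exact_mod_cast h4
              rw [div_div, one_div_pow]
              apply one_div_le_one_div_of_le (by positivity)
              linarith
            have h4 := Real.add_one_le_exp (-((1:ℝ) / s j / 2))
            linarith
      _ = Real.exp (-((∑ j ∈ J, (1:ℝ) / s j) / 2)) := by
          rw [← Real.exp_sum]
          congr 1
          rw [Finset.sum_neg_distrib, Finset.sum_div]
      _ ≤ Real.exp (-(n:ℝ)) := by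
          apply Real.exp_le_exp.2
          linarith
      _ ≤ (1/2:ℝ) ^ n := by
          rw [Real.exp_neg, ← one_div, one_div_pow]
          apply one_div_le_one_div_of_le (by positivity)
          have h3 : (2:ℝ) ≤ Real.exp 1 := by
            have := Real.add_one_le_exp (1:ℝ)
            linarith
          calc (2:ℝ)^n ≤ (Real.exp 1)^n := pow_le_pow_left₀ (by norm_num) h3 n
            _ = Real.exp n := by rw [← Real.exp_nat_mul]; simp
  · intro j _
    have : (1/2:ℝ) ^ (Nat.clog 2 (s j)) ≤ 1 := pow_le_one₀ (by norm_num) (by norm_num)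
    linarith

theorem match_ae {T : Set (I × ℕ)} {i : I} (hi : ∀ t ∈ T, t.1 ≠ i)
    {β φ : (I × ℕ → Bool) → ℕ → ℕ} (hβ : ∀ n v, Dep T {x | β x n = v})
    (hφ : ∀ n v, Dep T {x | φ x n = v}) (a : ℕ → ℕ) :
    ∀ᵐ x ∂(coinProduct I), (∀ j, β x j ≠ 0) →
      (∀ᶠ n : ℕ in atTop, 2 * (n : ℝ) ≤ ∑ j ∈ Finset.Ico (a n) (a (n + 1)), (1 : ℝ) / β x j) →
      (∀ j, φ x j < β x j) → Match a (fun j => pick (β x j) (fun m => x (i, m)) j) (φ x) := by
  classical
  let σ : ℕ → Type := fun n => (Fin (a (n + 1)) → ℕ) × (Fin (a (n + 1)) → ℕ)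
  let ex : ∀ {n : ℕ}, (Fin n → ℕ) → ℕ → ℕ := fun {n} s j => if h : j < n then s ⟨j, h⟩ else 1
  let Q : ∀ n, σ n → Prop := fun n s => (∀ j, ex s.1 j ≠ 0) ∧
    (2 * n : ℝ) ≤ ∑ j ∈ Finset.Ico (a n) (a (n + 1)), (1 : ℝ) / ex s.1 j
  have h := ae_block (σ := σ) hi
    (G := fun n s => {x | Q n s ∧ (∀ j : Fin (a (n + 1)), β x j = s.1 j) ∧
      ∀ j : Fin (a (n + 1)), φ x j = s.2 j})
    (H := fun n s => {x | ∀ j ∈ Finset.Ico (a n) (a (n + 1)),
      ¬ Spell (ex s.1 j) (fun m => x (i, m)) j (ex s.2 j)}) ?_ ?_ ?_ ?_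
  · filter_upwards [h] with x hx h0 hdiv hlt
    obtain ⟨N, hN⟩ := eventually_atTop.1 (hx.and hdiv)
    refine ⟨N, fun n hn => ?_⟩
    obtain ⟨hN1, hN2⟩ := hN n hn
    by_contra hcon
    push Not at hcon
    have he1 : ∀ j < a (n + 1), ex (fun j : Fin (a (n + 1)) => β x j) j = β x j := by
      intro j hj
      simp only [ex, dif_pos hj]
    have he2 : ∀ j < a (n + 1), ex (fun j : Fin (a (n + 1)) => φ x j) j = φ x j := by
      intro j hj
      simp only [ex, dif_pos hj]
    refine hN1 (fun j => β x j, fun j => φ x j) ⟨⟨⟨fun j => ?_, ?_⟩, fun _ => rfl, fun _ => rfl⟩, ?_⟩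
    · by_cases hj : j < a (n + 1)
      · show ex (fun j : Fin (a (n + 1)) => β x j) j ≠ 0
        rw [he1 j hj]
        exact h0 j
      · simp only [ex, dif_neg hj]
        exact one_ne_zero
    · refine hN2.trans (le_of_eq (Finset.sum_congr rfl fun j hj => ?_))
      show (1:ℝ) / β x j = 1 / (ex (fun j : Fin (a (n + 1)) => β x j) j : ℕ)
      rw [he1 j (Finset.mem_Ico.1 hj).2]
    · intro j hj hsp
      have hj' := Finset.mem_Ico.1 hj
      change Spell (ex (fun j : Fin (a (n + 1)) => β x j) j) (fun m => x (i, m)) j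
        (ex (fun j : Fin (a (n + 1)) => φ x j) j) at hsp
      rw [he1 j hj'.2, he2 j hj'.2] at hsp
      exact hcon j hj'.1 hj'.2 (pick_eq (hlt j) hsp).symm
  · intro n s
    by_cases hQ : Q n s
    · have : {x | Q n s ∧ (∀ j : Fin (a (n + 1)), β x j = s.1 j) ∧
          ∀ j : Fin (a (n + 1)), φ x j = s.2 j} =
          (⋂ j : Fin (a (n + 1)), {x | β x j = s.1 j}) ∩
            ⋂ j : Fin (a (n + 1)), {x | φ x j = s.2 j} := by
        ext x
        simp [hQ]
      rw [this]
      exact (Dep.iInter fun j => hβ _ _).inter (Dep.iInter fun j => hφ _ _)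
    · have : {x | Q n s ∧ (∀ j : Fin (a (n + 1)), β x j = s.1 j) ∧
          ∀ j : Fin (a (n + 1)), φ x j = s.2 j} = ∅ := by
        ext x
        simp [hQ]
      rw [this]
      exact dep_empty T
  · intro n s s' hne
    refine Set.disjoint_left.2 ?_
    rintro x ⟨_, h1, h2⟩ ⟨_, h3, h4⟩
    apply hne
    refine Prod.ext ?_ ?_
    · funext j
      rw [← h1 j, h3 j]
    · funext j
      rw [← h2 j, h4 j]
  · intro n s
    have : {x : I × ℕ → Bool | ∀ j ∈ Finset.Ico (a n) (a (n + 1)),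
        ¬ Spell (ex s.1 j) (fun m => x (i, m)) j (ex s.2 j)} =
        ⋂ j : ℕ, ⋂ (_ : j ∈ Finset.Ico (a n) (a (n + 1))),
          {x : I × ℕ → Bool | Spell (ex s.1 j) (fun m => x (i, m)) j (ex s.2 j)}ᶜ := by
      ext x
      simp
    rw [this]
    refine Dep.iInter fun j => Dep.iInter fun _ => (Dep.mono ?_ (dep_spell i _ _ _)).compl
    rintro t ⟨h1, _⟩
    exact h1
  · rintro n s ⟨x, hx, _, _⟩
    rw [measure_nospell i (ex s.1) (ex s.2)]
    exact prod_bound (ex s.1) _ n (fun j _ => hx.1 j) hx.2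

/-- For a random divergent function there is a good partition in the ground model. -/
theorem exists_part {β : (I × ℕ → Bool) → ℕ → ℕ} (hβ : ∀ n v, MeasurableSet {x | β x n = v})
    {A : Set (I × ℕ → Bool)} (hA : MeasurableSet A)
    (hdiv : ∀ᵐ x ∂(coinProduct I), x ∈ A → ∀ m : ℕ, ∀ C : ℝ, ∃ m', m < m' ∧
      C ≤ ∑ j ∈ Finset.Ico m m', (1 : ℝ) / β x j) :
    ∃ a : ℕ → ℕ, Part a ∧ ∀ᵐ x ∂(coinProduct I), x ∈ A →
      ∀ᶠ n : ℕ in atTop, 2 * (n : ℝ) ≤ ∑ j ∈ Finset.Ico (a n) (a (n + 1)), (1 : ℝ) / β x j := by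
  have hmeas : ∀ m m' : ℕ, ∀ C : ℝ,
      MeasurableSet {x | ∑ j ∈ Finset.Ico m m', (1 : ℝ) / β x j < C} := by
    intro m m' C
    refine measurableSet_lt ?_ measurable_const
    refine Finset.measurable_sum _ fun j _ => ?_
    have h1 : Measurable fun x => β x j := measurable_to_countable' fun v => hβ j v
    exact (measurable_from_top (f := fun v : ℕ => (1:ℝ) / v)).comp h1
  have h1 : ∀ n m : ℕ, ∃ m', m < m' ∧
      coinProduct I (A ∩ {x | ∑ j ∈ Finset.Ico m m', (1 : ℝ) / β x j < 2 * n}) ≤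
        (2 : ENNReal)⁻¹ ^ n := by
    intro n m
    let B : ℕ → Set (I × ℕ → Bool) := fun k =>
      A ∩ {x | ∑ j ∈ Finset.Ico m k, (1 : ℝ) / β x j < 2 * n}
    have h2 : Tendsto (coinProduct I ∘ B) atTop (𝓝 (coinProduct I (⋂ k, B k))) := by
      refine tendsto_measure_iInter_atTop (fun k => (hA.inter (hmeas _ _ _)).nullMeasurableSet)
        ?_ ⟨0, measure_ne_top _ _⟩
      intro k k' hkk' x hx
      have hle : (∑ j ∈ Finset.Ico m k, (1 : ℝ) / β x j) ≤ ∑ j ∈ Finset.Ico m k', (1 : ℝ) / β x j := by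
        refine Finset.sum_le_sum_of_subset_of_nonneg (Finset.Ico_subset_Ico_right hkk') ?_
        intro j _ _
        positivity
      have hx2 : (∑ j ∈ Finset.Ico m k', (1 : ℝ) / β x j) < 2 * n := hx.2
      exact ⟨hx.1, show (∑ j ∈ Finset.Ico m k, (1 : ℝ) / β x j) < 2 * n from lt_of_le_of_lt hle hx2⟩
    have h3 : coinProduct I (⋂ k, B k) = 0 := by
      refine measure_eq_zero_iff_ae_notMem.2 ?_
      filter_upwards [hdiv] with x hx hx'
      rw [mem_iInter] at hx'
      obtain ⟨m', _, hm'⟩ := hx (hx' 0).1 m (2 * n)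
      exact absurd (hx' m').2 (not_lt.2 hm')
    rw [h3] at h2
    obtain ⟨k, hk⟩ := eventually_atTop.1 (h2.eventually (ge_mem_nhds (TH773.PSet.two_pos n)))
    exact ⟨max k (m + 1), by omega, hk _ (le_max_left _ _)⟩
  choose g hg1 hg2 using h1
  let a : ℕ → ℕ := fun n => Nat.rec 0 (fun n m => g n m) n
  have ha : ∀ n, a (n + 1) = g n (a n) := fun n => rfl
  refine ⟨a, ⟨rfl, fun n => by rw [ha]; exact hg1 n _⟩, ?_⟩
  have h4 : ∑' n, coinProduct I
      (A ∩ {x | ∑ j ∈ Finset.Ico (a n) (a (n + 1)), (1 : ℝ) / β x j < 2 * n}) ≠ ⊤ :=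
    ne_top_of_le_ne_top tsum_two (ENNReal.tsum_le_tsum fun n => by rw [ha]; exact hg2 n _)
  filter_upwards [ae_eventually_notMem h4] with x hx hxA
  filter_upwards [hx] with n hn
  by_contra hcon
  exact hn ⟨hxA, not_le.1 hcon⟩

theorem sum_take (b : ℕ → ℕ) (s : List ℕ) (hs : ∀ j v, s[j]? = some v → b j = v) :
    (s.map fun v : ℕ => (1 : ℝ) / v).sum = ∑ j ∈ Finset.range s.length, (1 : ℝ) / b j := by
  induction s using List.reverseRecOn with
  | nil => simp
  | append_singleton s v ih =>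
    have h1 : ∀ j w, s[j]? = some w → b j = w := by
      intro j w hw
      apply hs j w
      obtain ⟨hj, _⟩ := List.getElem?_eq_some_iff.1 hw
      rw [List.getElem?_append_left hj, hw]
    have h2 : b s.length = v := by
      apply hs
      simp
    rw [List.map_append, List.sum_append, ih h1, List.length_append]
    simp only [List.map_cons, List.map_nil, List.sum_cons, List.sum_nil, add_zero,
      List.length_cons, List.length_nil, zero_add]
    rw [Finset.sum_range_succ, h2]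

theorem div_tail {b : ℕ → ℕ} (hb : Div b) (m : ℕ) (C : ℝ) :
    ∃ m', m < m' ∧ C ≤ ∑ j ∈ Finset.Ico m m', (1 : ℝ) / b j := by
  obtain ⟨M, hM⟩ := exists_nat_ge (C + ∑ j ∈ Finset.range (m + 1), (1 : ℝ) / b j)
  obtain ⟨s, hs1, hs2⟩ := hb.2 M
  rw [sum_take b s hs2] at hs1
  have h0 : ∀ j, 0 ≤ (1 : ℝ) / b j := fun j => by positivity
  refine ⟨max s.length (m + 1), by omega, ?_⟩
  have h1 : ∑ j ∈ Finset.range s.length, (1 : ℝ) / b j ≤
      ∑ j ∈ Finset.range (max s.length (m + 1)), (1 : ℝ) / b j :=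
    Finset.sum_le_sum_of_subset_of_nonneg (Finset.range_subset_range.2 (le_max_left _ _))
      fun j _ _ => h0 j
  have h2 : ∑ j ∈ Finset.range (max s.length (m + 1)), (1 : ℝ) / b j =
      ∑ j ∈ Finset.range m, (1 : ℝ) / b j +
        ∑ j ∈ Finset.Ico m (max s.length (m + 1)), (1 : ℝ) / b j :=
    (Finset.sum_range_add_sum_Ico _ (by omega)).symm
  have h3 : ∑ j ∈ Finset.range m, (1 : ℝ) / b j ≤ ∑ j ∈ Finset.range (m + 1), (1 : ℝ) / b j :=
    Finset.sum_le_sum_of_subset_of_nonneg (Finset.range_subset_range.2 (Nat.le_succ m))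
      fun j _ _ => h0 j
  linarith

end Pool.Agent.R593.Eq
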