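import Mathlib
import Pool.Agent.R593.Rnd.Polar
import Pool.Agent.R593.Eq.Meas

/-!
# The sentence holds after adding many random reals
-/

set_option autoImplicit false
set_option linter.unusedSectionVars false

namespace Pool.Agent.R593.Eq

open Cardinal MeasureTheory Set Filter Topology Pool.Agent.TH773.PSet Pool.Agent.R593.Rnd

section

variable {Ω : Type} [MeasurableSpace Ω] {μ : Measure Ω} {p : Cond μ}

/-- The name `y` is represented below `p` by the random function `η`. -/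
def IsRep {Y : Type} (p : Cond μ) (y : ℕ → Y → Set (Cond μ)) (η : Ω → ℕ → Y) : Prop :=
  ∀ j v, RpOn p (meets (y j v)) (fun x => η x j = v)

theorem IsRep.mono {Y : Type} {y : ℕ → Y → Set (Cond μ)} {η : Ω → ℕ → Y} (h : IsRep p y η)
    {q : Cond μ} (hq : q ≤ p) : IsRep q y η := fun j v => (h j v).mono hq

theorem isRep_AE {Y : Type} {η : Ω → ℕ → Y} (h : ∀ j v, MeasurableSet {x | η x j = v}) :
    IsRep p (fun j v => AE μ {x | η x j = v}) η := fun j v => RpOn.ae (h j v)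

theorem isRep_check (g : ℕ → ℕ) : IsRep p (check g) (fun _ => g) := by
  intro j v
  refine ⟨MeasurableSet.const _, fun q _ => ?_⟩
  rw [mem_meets_check]
  constructor
  · intro h
    rw [mem_AE_iff]
    exact ae_of_all _ fun x _ => h
  · intro h
    by_contra hcon
    refine not_AE_compl h ?_
    rw [mem_AE_iff]
    exact ae_of_all _ fun x _ => hcon

theorem isFun_of_rep {Y : Type} [Countable Y] {y : ℕ → Y → Set (Cond μ)} {η : Ω → ℕ → Y}
    (h : IsRep p y η) : p ∈ IsFun y := by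
  have h1 : RpOn p (IsFun y) (fun x => (∀ j, ∃ v, η x j = v) ∧
      ∀ j v v', ∀ _ : v ≠ v', ¬ (η x j = v ∧ η x j = v')) := by
    refine RpOn.and (RpOn.all fun j => RpOn.ex fun v => h j v) ?_
    exact RpOn.all fun j => RpOn.all fun v => RpOn.all fun v' => RpOn.all fun _ =>
      ((h j v).and (h j v')).not
  refine (h1.mem le_rfl).2 (ae_of_all _ fun x _ => ⟨fun j => ⟨_, rfl⟩, ?_⟩)
  rintro j v v' hne ⟨h2, h3⟩
  exact hne (h2.symm.trans h3)

theorem rp_small {c : ℕ → Finset (List Bool) → Set (Cond μ)} {γ : Ω → ℕ → Finset (List Bool)}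
    (hc : IsRep p c γ) : RpOn p (SmallN c) (fun x => Small (γ x)) := by
  refine (RpOn.all fun n => RpOn.all fun S => RpOn.all
    fun _ : ¬ wt S ≤ (2 : ENNReal)⁻¹ ^ n => (hc n S).not).congr fun x => ?_
  constructor
  · intro h n
    by_contra hcon
    exact h n _ hcon rfl
  · intro h n S hS h1
    exact hS (h1 ▸ h n)

theorem rp_avoid {c : ℕ → Finset (List Bool) → Set (Cond μ)} {γ : Ω → ℕ → Finset (List Bool)}
    (hc : IsRep p c γ) {y : ℕ → Bool → Set (Cond μ)} {η : Ω → ℕ → Bool} (hy : IsRep p y η) :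
    RpOn p (AvoidN y c) (fun x => Avoid (η x) (γ x)) := by
  refine (RpOn.ex fun N : ℕ => RpOn.all fun n => RpOn.all fun _ : N ≤ n => RpOn.all fun S =>
    RpOn.imp (hc n S) (RpOn.all fun s => RpOn.all fun _ : s ∈ S => RpOn.ex fun i => RpOn.ex fun v =>
      RpOn.ex fun _ : s[i]? = some v => (hy i v).not)).congr fun x => ?_
  constructor
  · rintro ⟨N, hN⟩
    refine ⟨N, fun n hn s hs => ?_⟩
    obtain ⟨i, v, h1, h2⟩ := hN n hn _ rfl s hs
    exact ⟨i, v, h1, h2⟩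
  · rintro ⟨N, hN⟩
    refine ⟨N, fun n hn S hS s hs => ?_⟩
    obtain ⟨i, v, h1, h2⟩ := hN n hn s (by rw [hS]; exact hs)
    exact ⟨i, v, h1, h2⟩

theorem rp_div {b : ℕ → ℕ → Set (Cond μ)} {β : Ω → ℕ → ℕ} (hb : IsRep p b β) :
    RpOn p (DivN b) (fun x => Div (β x)) := by
  refine (RpOn.and (RpOn.all fun j => (hb j 0).not) (RpOn.all fun M : ℕ => RpOn.ex
    fun s : List ℕ => RpOn.ex fun _ : (M : ℝ) ≤ (s.map fun v : ℕ => (1 : ℝ) / v).sum =>
      RpOn.all fun j => RpOn.all fun v => RpOn.all fun _ : s[j]? = some v => hb j v)).congr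
        fun x => ?_
  constructor
  · rintro ⟨h1, h2⟩
    refine ⟨h1, fun M => ?_⟩
    obtain ⟨s, h3, h4⟩ := h2 M
    exact ⟨s, h3, h4⟩
  · rintro ⟨h1, h2⟩
    refine ⟨h1, fun M => ?_⟩
    obtain ⟨s, h3, h4⟩ := h2 M
    exact ⟨s, h3, h4⟩

theorem rp_part {a : ℕ → ℕ → Set (Cond μ)} {α : Ω → ℕ → ℕ} (ha : IsRep p a α) :
    RpOn p (PartN a) (fun x => Part (α x)) := by
  refine (RpOn.and (ha 0 0) (RpOn.all fun n => RpOn.all fun u => RpOn.all fun u' => RpOn.all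
    fun _ : ¬ u < u' => ((ha n u).and (ha (n + 1) u')).not)).congr fun x => ?_
  constructor
  · rintro ⟨h1, h2⟩
    refine ⟨h1, fun n => ?_⟩
    by_contra hcon
    exact h2 n _ _ hcon ⟨rfl, rfl⟩
  · rintro ⟨h1, h2⟩
    refine ⟨h1, ?_⟩
    rintro n u u' hu ⟨h3, h4⟩
    exact hu (by rw [← h3, ← h4]; exact h2 n)

theorem rp_lt {f b : ℕ → ℕ → Set (Cond μ)} {φ β : Ω → ℕ → ℕ} (hf : IsRep p f φ)
    (hb : IsRep p b β) : RpOn p (LtN f b) (fun x => ∀ j, φ x j < β x j) := by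
  refine (RpOn.all fun j => RpOn.all fun v => RpOn.all fun w => RpOn.all fun _ : ¬ v < w =>
    ((hf j v).and (hb j w)).not).congr fun x => ?_
  constructor
  · intro h j
    by_contra hcon
    exact h j _ _ hcon ⟨rfl, rfl⟩
  · rintro h j v w hvw ⟨h1, h2⟩
    exact hvw (by rw [← h1, ← h2]; exact h j)

theorem rp_match {a h f : ℕ → ℕ → Set (Cond μ)} {α η φ : Ω → ℕ → ℕ} (ha : IsRep p a α)
    (hh : IsRep p h η) (hf : IsRep p f φ) :
    RpOn p (MatchN a h f) (fun x => Match (α x) (η x) (φ x)) := by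
  refine (RpOn.ex fun N : ℕ => RpOn.all fun n => RpOn.all fun _ : N ≤ n =>
    RpOn.ex fun j => RpOn.ex fun u => RpOn.ex fun u' => RpOn.ex fun _ : u ≤ j ∧ j < u' =>
      RpOn.and (RpOn.and (ha n u) (ha (n + 1) u'))
        (RpOn.ex fun v => RpOn.and (hf j v) (hh j v))).congr fun x => ?_
  constructor
  · rintro ⟨N, hN⟩
    refine ⟨N, fun n hn => ?_⟩
    obtain ⟨j, u, u', ⟨h1, h2⟩, ⟨h3, h4⟩, v, h5, h6⟩ := hN n hn
    exact ⟨j, by rw [h3]; exact h1, by rw [h4]; exact h2, h5.trans h6.symm⟩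
  · rintro ⟨N, hN⟩
    refine ⟨N, fun n hn => ?_⟩
    obtain ⟨j, h1, h2, h3⟩ := hN n hn
    exact ⟨j, _, _, ⟨h1, h2⟩, ⟨rfl, rfl⟩, _, h3, rfl⟩

end

variable {I K : Type}

theorem reg_smallN {P : Type} [Preorder P] (c : ℕ → Finset (List Bool) → Set P) : Reg (SmallN c) :=
  reg_fall fun _ => reg_fall fun _ => reg_fall fun _ => reg_fnot (reg_meets _).1

theorem reg_divN {P : Type} [Preorder P] (b : ℕ → ℕ → Set P) : Reg (DivN b) :=
  reg_fand (reg_fall fun _ => reg_fnot (reg_meets _).1) (reg_fall fun _ => reg_fex _)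

theorem reg_ltN {P : Type} [Preorder P] (f b : ℕ → ℕ → Set P) : Reg (LtN f b) :=
  reg_fall fun _ => reg_fall fun _ => reg_fall fun _ => reg_fall fun _ =>
    reg_fnot (reg_fand (reg_meets _) (reg_meets _)).1

theorem dep_all_meas {Y : Type} {T : Set (I × ℕ)} {β : (I × ℕ → Bool) → ℕ → Y}
    (h : ∀ n y, Dep T {x | β x n = y}) (n : ℕ) (y : Y) : MeasurableSet {x | β x n = y} :=
  (h n y).meas

/-- A coordinate outside of a countable support. -/
theorem exists_index (hK : ℵ₀ < #K) (e : K ↪ I) {T : Set (I × ℕ)} (hT : T.Countable) :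
    ∃ k, ∀ t ∈ T, t.1 ≠ e k := by
  by_contra hcon
  push Not at hcon
  choose g hg hg' using hcon
  have h1 : #K ≤ #T := by
    refine Cardinal.mk_le_of_injective (f := fun k => (⟨g k, hg k⟩ : T)) ?_
    intro k k' h
    have h2 : g k = g k' := congrArg Subtype.val h
    exact e.injective (by rw [← hg' k, ← hg' k', h2])
  have h2 : #T ≤ ℵ₀ := Cardinal.mk_le_aleph0_iff.2 hT
  exact absurd (h1.trans h2) (not_le.2 hK)

theorem bit_meas (i : I) (j : ℕ) (v : Bool) : MeasurableSet {x : I × ℕ → Bool | x (i, j) = v} :=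
  (dep_bit i j v).meas

/-- The name of the random real with index `i`. -/
def rnd (i : I) : ℕ → Bool → Set (Random I) :=
  fun j v => AE (coinProduct I) {x : I × ℕ → Bool | x (i, j) = v}

theorem isRep_rnd (i : I) (p : Random I) : IsRep p (rnd i) (fun x j => x (i, j)) :=
  isRep_AE fun j v => bit_meas i j v

theorem avoid_rnd {r : Random I} {c : ℕ → Finset (List Bool) → Set (Random I)}
    (hc : r ∈ SmallN c) {γ : (I × ℕ → Bool) → ℕ → Finset (List Bool)} {T : Set (I × ℕ)}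
    (hT : ∀ n S, Dep T {x | γ x n = S}) (hγ : IsRep r c γ) {i : I} (hi : ∀ t ∈ T, t.1 ≠ i) :
    r ∈ AvoidN (rnd i) c := by
  refine ((rp_avoid hγ (isRep_rnd i r)).mem le_rfl).2 ?_
  have h1 := ((rp_small hγ).mem le_rfl).1 hc
  filter_upwards [h1, avoid_ae hi hT] with x h2 h3 h4
  exact h3 (h2 h4)

theorem nonNullN (hK : ℵ₀ < #K) (hKI : #K < #I) (p : Random I) : p ∈ NonNullN (Random I) K := by
  obtain ⟨e⟩ := (Cardinal.le_def _ _).1 hKI.le
  refine mem_fex_of (fun k => rnd (e k)) fun q _ =>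
    ⟨fun k => isFun_of_rep (isRep_rnd (e k) q), fun c => ?_⟩
  rw [mem_fimp_reg (reg_fand (reg_isFun c) (reg_smallN c)).1 (reg_fex _)]
  rintro r _ ⟨hr1, hr2⟩
  obtain ⟨γ, T, hTc, hT, hγ⟩ := exists_fun c
  obtain ⟨k, hk⟩ := exists_index hK e hTc
  refine mem_fex_of k fun s hs => ?_
  exact avoid_rnd ((reg_smallN c).1 _ hr2 _ hs) hT (fun n S => hγ s ((reg_isFun c).1 _ hr1 _ hs) n S) hk

theorem card_iUnion_lt (hK : ℵ₀ < #K) (hKI : #K < #I) {T : K → Set (I × ℕ)}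
    (hTc : ∀ k, (T k).Countable) : #(⋃ k, T k : Set (I × ℕ)) < #I := by
  refine lt_of_le_of_lt ?_ hKI
  refine (Cardinal.mk_iUnion_le _).trans ?_
  calc #K * ⨆ k, #(T k) ≤ #K * ℵ₀ :=
        mul_le_mul' le_rfl (ciSup_le' fun k => Cardinal.mk_le_aleph0_iff.2 (hTc k))
    _ = #K := Cardinal.mul_aleph0_eq hK.le

theorem noCoverN (hK : ℵ₀ < #K) (hKI : #K < #I) (p : Random I) : p ∈ NoCoverN (Random I) K := by
  intro c
  rw [mem_fimp_reg (reg_fall fun k => reg_fand (reg_isFun (c k)) (reg_smallN (c k))).1 (reg_fex _)]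
  intro r _ hr
  choose γ T hTc hT hγ using fun k => exists_fun (c k)
  obtain ⟨i, hi⟩ := exists_new (card_iUnion_lt hK hKI hTc)
  refine mem_fex_of (rnd i) fun q hq => ⟨isFun_of_rep (isRep_rnd i q), fun k => ?_⟩
  exact avoid_rnd ((reg_smallN (c k)).1 _ (hr k).2 _ hq) (hT k)
    (fun n S => hγ k q ((reg_isFun (c k)).1 _ (hr k).1 _ hq) n S)
    fun t ht => hi t (mem_iUnion.2 ⟨k, ht⟩)

/-- The name of the function given by the random real with index `i` below a random bound. -/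
def pk (i : I) (β : (I × ℕ → Bool) → ℕ → ℕ) : ℕ → ℕ → Set (Random I) :=
  fun j v => AE (coinProduct I) {x : I × ℕ → Bool | pick (β x j) (fun m => x (i, m)) j = v}

theorem isRep_pk (i : I) {β : (I × ℕ → Bool) → ℕ → ℕ} (hβ : ∀ n v, MeasurableSet {x | β x n = v})
    (p : Random I) : IsRep p (pk i β) (fun x j => pick (β x j) (fun m => x (i, m)) j) := by
  refine isRep_AE fun j v => ?_
  have : {x : I × ℕ → Bool | pick (β x j) (fun m => x (i, m)) j = v} =
      ⋃ w, {x | β x j = w} ∩ {x | pick w (fun m => x (i, m)) j = v} := by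
    ext x
    simp
  rw [this]
  exact MeasurableSet.iUnion fun w => (hβ j w).inter (measurable_pick i w j v)

theorem lt_pk {r : Random I} {b : ℕ → ℕ → Set (Random I)} (hb : r ∈ DivN b)
    {β : (I × ℕ → Bool) → ℕ → ℕ} (hβ : ∀ n v, MeasurableSet {x | β x n = v}) (hbr : IsRep r b β)
    (i : I) : r ∈ LtN (pk i β) b := by
  refine ((rp_lt (isRep_pk i hβ r) hbr).mem le_rfl).2 ?_
  filter_upwards [((rp_div hbr).mem le_rfl).1 hb] with x h1 h2 j
  exact pick_lt ((h1 h2).1 j) _ _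

theorem match_pk {r : Random I} {b f : ℕ → ℕ → Set (Random I)} (hb : r ∈ DivN b)
    (hf : r ∈ LtN f b) {β φ : (I × ℕ → Bool) → ℕ → ℕ} {T : Set (I × ℕ)}
    (hTb : ∀ n v, Dep T {x | β x n = v}) (hTf : ∀ n v, Dep T {x | φ x n = v})
    (hbr : IsRep r b β) (hfr : IsRep r f φ) {a : ℕ → ℕ}
    (ha : ∀ᵐ x ∂(coinProduct I), x ∈ r.1 →
      ∀ᶠ n : ℕ in atTop, 2 * (n : ℝ) ≤ ∑ j ∈ Finset.Ico (a n) (a (n + 1)), (1 : ℝ) / β x j)
    {i : I} (hi : ∀ t ∈ T, t.1 ≠ i) : r ∈ MatchN (check a) (pk i β) f := by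
  have hm : ∀ n v, MeasurableSet {x | β x n = v} := dep_all_meas hTb
  refine ((rp_match (isRep_check a) (isRep_pk i hm r) hfr).mem le_rfl).2 ?_
  have h1 := ((rp_div hbr).mem le_rfl).1 hb
  have h2 := ((rp_lt hfr hbr).mem le_rfl).1 hf
  filter_upwards [h1, h2, ha, match_ae hi hTb hTf a] with x h3 h4 h5 h6 h7
  exact h6 (h3 h7).1 (h5 h7) (h4 h7)

theorem exists_part_name {r : Random I} {b : ℕ → ℕ → Set (Random I)} (hb : r ∈ DivN b)
    {β : (I × ℕ → Bool) → ℕ → ℕ} (hβ : ∀ n v, MeasurableSet {x | β x n = v}) (hbr : IsRep r b β) :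
    ∃ a : ℕ → ℕ, Part a ∧ ∀ᵐ x ∂(coinProduct I), x ∈ r.1 →
      ∀ᶠ n : ℕ in atTop, 2 * (n : ℝ) ≤ ∑ j ∈ Finset.Ico (a n) (a (n + 1)), (1 : ℝ) / β x j := by
  refine exists_part hβ r.2.1 ?_
  filter_upwards [((rp_div hbr).mem le_rfl).1 hb] with x h1 h2 m C
  exact div_tail (h1 h2) m C

theorem dep_mono_all {Y : Type} {T T' : Set (I × ℕ)} (hTT : T ⊆ T')
    {β : (I × ℕ → Bool) → ℕ → Y} (h : ∀ n y, Dep T {x | β x n = y}) (n : ℕ) (y : Y) :
    Dep T' {x | β x n = y} := (h n y).mono hTT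

theorem ae_mono {r s : Random I} (h : s ≤ r) {Q : (I × ℕ → Bool) → Prop}
    (hQ : ∀ᵐ x ∂(coinProduct I), x ∈ r.1 → Q x) : ∀ᵐ x ∂(coinProduct I), x ∈ s.1 → Q x := by
  have h1 : ∀ᵐ x ∂(coinProduct I), x ∈ s.1 → x ∈ r.1 := mem_AE_iff.1 h
  filter_upwards [h1, hQ] with x h2 h3 h4
  exact h3 (h2 h4)

theorem allBoundedN (hK : ℵ₀ < #K) (hKI : #K < #I) (p : Random I) :
    p ∈ AllBoundedN (Random I) K := by
  intro b
  have hdown : ∀ f : K → ℕ → ℕ → Set (Random I),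
      Down (fall fun k => fand (IsFun (f k)) (LtN (f k) b)) := fun f =>
    (reg_fall fun k => reg_fand (reg_isFun (f k)) (reg_ltN (f k) b)).1
  have hreg : Reg (fall fun f : K → ℕ → ℕ → Set (Random I) =>
      fimp (fall fun k => fand (IsFun (f k)) (LtN (f k) b))
        (fex fun a : ℕ → ℕ → Set (Random I) => fex fun h : ℕ → ℕ → Set (Random I) =>
          fand (fand (IsFun a) (PartN a)) (fand (fand (IsFun h) (LtN h b))
            (fall fun k => MatchN a h (f k))))) :=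
    reg_fall fun f => reg_fimp (hdown f)
  refine (mem_fimp_reg (reg_fand (reg_isFun b) (reg_divN b)).1 hreg).2 ?_
  rintro r _ ⟨hr1, hr2⟩ f
  refine (mem_fimp_reg (hdown f) (reg_fex _)).2 ?_
  intro s hs hsf
  obtain ⟨β, Tb, hTbc, hTb, hβ⟩ := exists_fun b
  choose φ T hTc hT hφ using fun k => exists_fun (f k)
  have hm : ∀ n v, MeasurableSet {x | β x n = v} := dep_all_meas hTb
  have hs1 : s ∈ IsFun b := (reg_isFun b).1 _ hr1 _ hs
  have hs2 : s ∈ DivN b := (reg_divN b).1 _ hr2 _ hs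
  have hsb : IsRep s b β := fun n v => hβ s hs1 n v
  obtain ⟨a, ha1, ha2⟩ := exists_part_name hs2 hm hsb
  obtain ⟨i, hi⟩ := exists_new (card_iUnion_lt hK hKI fun k => hTbc.union (hTc k))
  refine mem_fex_of (check a) fun t ht => mem_fex_of (pk i β) fun u hu => ?_
  have hus : u ≤ s := hu.trans ht
  have hu2 : u ∈ DivN b := (reg_divN b).1 _ hs2 _ hus
  refine ⟨⟨check_isFun a u, ?_⟩, ⟨isFun_of_rep (isRep_pk i hm u), lt_pk hu2 hm (hsb.mono hus) i⟩,
    fun k => ?_⟩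
  · exact ((rp_part (isRep_check a)).mem le_rfl).2 (ae_of_all _ fun _ _ => ha1)
  · have hsk : IsRep s (f k) (φ k) := fun n v => hφ k s (hsf k).1 n v
    have hTk : T k ⊆ Tb ∪ T k := subset_union_right
    have h1 : ∀ n v, Dep (Tb ∪ T k) {x | β x n = v} := dep_mono_all subset_union_left hTb
    have h2 : ∀ n v, Dep (Tb ∪ T k) {x | φ k x n = v} := dep_mono_all hTk (hT k)
    have h3 : u ∈ LtN (f k) b := (reg_ltN (f k) b).1 _ (hsf k).2 _ hus
    refine match_pk (T := Tb ∪ T k) hu2 h3 h1 h2 (hsb.mono hus) (hsk.mono hus)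
      (ae_mono hus ha2) ?_
    intro t ht'
    exact hi t (mem_iUnion.2 ⟨k, ht'⟩)

theorem cofinalN (hK : ℵ₀ < #K) (hKI : #K < #I) (p : Random I) : p ∈ CofinalN (Random I) K := by
  obtain ⟨e⟩ := (Cardinal.le_def _ _).1 hKI.le
  intro b
  rw [mem_fimp_reg (reg_fand (reg_isFun b) (reg_divN b)).1 (reg_fex _)]
  rintro r _ ⟨hr1, hr2⟩
  obtain ⟨β, Tb, hTbc, hTb, hβ⟩ := exists_fun b
  have hm : ∀ n v, MeasurableSet {x | β x n = v} := dep_all_meas hTb
  have hrb : IsRep r b β := fun n v => hβ r hr1 n v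
  obtain ⟨a, ha1, ha2⟩ := exists_part_name hr2 hm hrb
  refine mem_fex_of (check a) fun t ht => mem_fex_of (fun k => pk (e k) β) fun u hu => ?_
  have hur : u ≤ r := hu.trans ht
  have hu2 : u ∈ DivN b := (reg_divN b).1 _ hr2 _ hur
  refine ⟨⟨check_isFun a u, ?_⟩, fun k => ⟨isFun_of_rep (isRep_pk (e k) hm u),
    lt_pk hu2 hm (hrb.mono hur) (e k)⟩, fun f => ?_⟩
  · exact ((rp_part (isRep_check a)).mem le_rfl).2 (ae_of_all _ fun _ _ => ha1)
  · rw [mem_fimp_reg (reg_fand (reg_isFun f) (reg_ltN f b)).1 (reg_fex _)]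
    rintro s hs ⟨hs1, hs2⟩
    obtain ⟨φ, Tf, hTfc, hTf, hφ⟩ := exists_fun f
    obtain ⟨k, hk⟩ := exists_index hK e (hTbc.union hTfc)
    have hsr : s ≤ r := hs.trans hur
    refine mem_fex_of k fun w hw => ?_
    have hwr : w ≤ r := hw.trans hsr
    have hsk : IsRep s f φ := fun n v => hφ s hs1 n v
    have h1 : ∀ n v, Dep (Tb ∪ Tf) {x | β x n = v} := dep_mono_all subset_union_left hTb
    have h2 : ∀ n v, Dep (Tb ∪ Tf) {x | φ x n = v} := dep_mono_all subset_union_right hTf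
    exact match_pk (T := Tb ∪ Tf) ((reg_divN b).1 _ hr2 _ hwr) ((reg_ltN f b).1 _ hs2 _ hw)
      h1 h2 (hrb.mono hwr) (hsk.mono hw) (ae_mono hwr ha2) hk

/-- Forcing with `Random I` makes the sentence true. -/
theorem phiHolds (hK : ℵ₀ < #K) (hKI : #K < #I) (p : Random I) : p ∈ PhiHolds (Random I) K :=
  ⟨nonNullN hK hKI p, noCoverN hK hKI p, allBoundedN hK hKI p, cofinalN hK hKI p⟩

end Pool.Agent.R593.Eq
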