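import Mathlib
import Pool.Agent.R593.Eq.Meas

/-!
# The cardinal invariants and what the sentence says about them
-/

set_option autoImplicit false
set_option linter.unusedSectionVars false

namespace Pool.Agent.R593.Eq

open Cardinal MeasureTheory Set Filter Topology Pool.Agent.TH773.PSet

/-! ### Definitions -/

/-- Lebesgue measure on `2^ω`, the product of the fair coin measures. -/
noncomputable def lam : Measure (ℕ → Bool) := Measure.infinitePi fun _ => coin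

/-- `A` belongs to the σ-ideal `E` generated by the closed null sets. -/
def IsE (A : Set (ℕ → Bool)) : Prop :=
  ∃ F : ℕ → Set (ℕ → Bool), (∀ n, IsClosed (F n) ∧ lam (F n) = 0) ∧ A ⊆ ⋃ n, F n

/-- `non(E)` -/
noncomputable def nonE : Cardinal.{0} := sInf {κ | ∃ A : Set (ℕ → Bool), ¬ IsE A ∧ #A = κ}

/-- `cov(E)` -/
noncomputable def covE : Cardinal.{0} :=
  sInf {κ | ∃ 𝒜 : Set (Set (ℕ → Bool)), (∀ A ∈ 𝒜, IsE A) ∧ ⋃₀ 𝒜 = Set.univ ∧ #𝒜 = κ}

/-- The product `∏ b`. -/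
def Prd (b : ℕ → ℕ) : Set (ℕ → ℕ) := {f | ∀ j, f j < b j}

/-- The family `F` is bounded: there are an interval partition and `h ∈ ∏ b` such that each
`f ∈ F` agrees with `h` somewhere in almost all intervals. -/
def Bdd (b : ℕ → ℕ) (F : Set (ℕ → ℕ)) : Prop :=
  ∃ a h, Part a ∧ h ∈ Prd b ∧ ∀ f ∈ F, Match a h f

/-- The cardinal `b_b^eq` -/
noncomputable def beq (b : ℕ → ℕ) : Cardinal.{0} :=
  sInf {κ | ∃ F ⊆ Prd b, ¬ Bdd b F ∧ #F = κ}

/-- The cardinal `d_b^eq` -/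
noncomputable def deq (b : ℕ → ℕ) : Cardinal.{0} :=
  sInf {κ | ∃ D : Set ((ℕ → ℕ) × (ℕ → ℕ)), (∀ d ∈ D, Part d.1 ∧ d.2 ∈ Prd b) ∧
    (∀ f ∈ Prd b, ∃ d ∈ D, Match d.1 d.2 f) ∧ #D = κ}

/-- The series `∑ 1 / b k` of positive terms diverges. -/
def Divergent (b : ℕ → ℕ) : Prop := (∀ k, 1 ≤ b k) ∧ ¬ Summable fun k => (1 : ℝ) / b k

/-! ### Closed null sets -/

theorem coin_singleton (b : Bool) : coin {b} = (2 : ENNReal)⁻¹ := by
  cases b with
  | true => exact coin_true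
  | false =>
    unfold coin
    simp [Measure.smul_apply, Measure.add_apply]

instance : IsProbabilityMeasure lam := by unfold lam; infer_instance

theorem lam_cyl (L : ℕ) (t : Fin L → Bool) :
    lam {x | ∀ i : Fin L, x i = t i} = (2 : ENNReal)⁻¹ ^ L := by
  classical
  let v : ℕ → Bool := fun j => if h : j < L then t ⟨j, h⟩ else false
  have hs : {x : ℕ → Bool | ∀ i : Fin L, x i = t i} =
      Set.pi (Finset.range L : Finset ℕ) fun j => {v j} := by
    ext x
    simp only [Set.mem_pi, Finset.mem_coe, Finset.mem_range, mem_singleton_iff, mem_ofPred_eq]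
    constructor
    · intro h j hj
      simp only [v, dif_pos hj]
      exact h ⟨j, hj⟩
    · intro h i
      have := h i i.2
      simp only [v, dif_pos i.2] at this
      exact this
  rw [hs, lam, Measure.infinitePi_pi _ fun _ _ => measurableSet_singleton _]
  simp only [coin_singleton, Finset.prod_const, Finset.card_range]

theorem cover_closed {F : Set (ℕ → Bool)} (hF : IsClosed F) (h0 : lam F = 0) (n : ℕ) :
    ∃ S : Finset (List Bool), wt S ≤ (2 : ENNReal)⁻¹ ^ n ∧ ∀ x ∈ F, ∃ s ∈ S, x ∈ cyl s := by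
  classical
  let T : ∀ L : ℕ, Finset (Fin L → Bool) := fun L =>
    Finset.univ.filter fun t => ∃ y ∈ F, ∀ i : Fin L, y i = t i
  let U : ℕ → Set (ℕ → Bool) := fun L => {x | ∃ y ∈ F, ∀ i < L, y i = x i}
  have hUT : ∀ L, U L = ⋃ t ∈ T L, {x | ∀ i : Fin L, x i = t i} := by
    intro L
    ext x
    simp only [U, T, mem_ofPred_eq, mem_iUnion, Finset.mem_filter, Finset.mem_univ, true_and,
      exists_prop]
    constructor
    · rintro ⟨y, hy, hyx⟩
      exact ⟨fun i => x i, ⟨y, hy, fun i => hyx i i.2⟩, fun _ => rfl⟩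
    · rintro ⟨t, ⟨y, hy, hyt⟩, hxt⟩
      exact ⟨y, hy, fun i hi => (hyt ⟨i, hi⟩).trans (hxt ⟨i, hi⟩).symm⟩
  have hcylm : ∀ L (t : Fin L → Bool), MeasurableSet {x : ℕ → Bool | ∀ i : Fin L, x i = t i} := by
    intro L t
    have : {x : ℕ → Bool | ∀ i : Fin L, x i = t i} = ⋂ i : Fin L, {x | x i = t i} := by
      ext x; simp
    rw [this]
    exact MeasurableSet.iInter fun i => measurableSet_eq_fun (measurable_pi_apply _) measurable_const
  have hUm : ∀ L, MeasurableSet (U L) := fun L => by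
    rw [hUT]
    exact Finset.measurableSet_biUnion _ fun t _ => hcylm L t
  have hUmeas : ∀ L, lam (U L) = (T L).card * (2 : ENNReal)⁻¹ ^ L := by
    intro L
    rw [hUT, measure_biUnion_finset ?_ fun t _ => hcylm L t]
    · simp only [lam_cyl, Finset.sum_const, nsmul_eq_mul]
    · intro t _ t' _ hne
      refine Set.disjoint_left.2 fun x hx hx' => hne ?_
      funext i
      exact (hx i).symm.trans (hx' i)
  have hInter : ⋂ L, U L = F := by
    apply Subset.antisymm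
    · intro x hx
      by_contra hxF
      have hopen : IsOpen Fᶜ := hF.isOpen_compl
      obtain ⟨J, u, hu1, hu2⟩ := isOpen_pi_iff.1 hopen x hxF
      obtain ⟨L, hL⟩ : ∃ L, ∀ j ∈ J, j < L := ⟨J.sup id + 1, fun j hj =>
        Nat.lt_succ_of_le (Finset.le_sup (f := id) hj)⟩
      obtain ⟨y, hy, hyx⟩ := mem_iInter.1 hx L
      refine hu2 (?_ : y ∈ _) hy
      intro j hj
      have : y j = x j := hyx j (hL j hj)
      rw [this]
      exact (hu1 j hj).2
    · intro x hx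
      exact mem_iInter.2 fun L => ⟨x, hx, fun _ _ => rfl⟩
  have htend : Tendsto (lam ∘ U) atTop (𝓝 (lam (⋂ L, U L))) := by
    refine tendsto_measure_iInter_atTop (fun L => (hUm L).nullMeasurableSet) ?_
      ⟨0, measure_ne_top _ _⟩
    rintro L L' hLL' x ⟨y, hy, hyx⟩
    exact ⟨y, hy, fun i hi => hyx i (lt_of_lt_of_le hi hLL')⟩
  rw [hInter, h0] at htend
  obtain ⟨L, hL⟩ := (htend.eventually (ge_mem_nhds (TH773.PSet.two_pos n))).exists
  refine ⟨(T L).image List.ofFn, ?_, fun x hx => ?_⟩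
  · have h1 : wt ((T L).image List.ofFn) = (T L).card * (2 : ENNReal)⁻¹ ^ L := by
      unfold wt
      rw [Finset.sum_image fun t _ t' _ h => List.ofFn_injective h]
      simp only [List.length_ofFn, Finset.sum_const, nsmul_eq_mul]
    rw [h1, ← hUmeas]
    exact hL
  · refine ⟨List.ofFn fun i : Fin L => x i, ?_, ?_⟩
    · refine Finset.mem_image_of_mem _ ?_
      simp only [T, Finset.mem_filter, Finset.mem_univ, true_and]
      exact ⟨x, hx, fun _ => rfl⟩
    · intro i v hv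
      obtain ⟨hi, h1⟩ := List.getElem?_eq_some_iff.1 hv
      rw [List.getElem_ofFn] at h1
      exact h1

theorem small_of_isE {A : Set (ℕ → Bool)} (hA : IsE A) : ∃ c, Small c ∧ ∀ x ∈ A, ¬ Avoid x c := by
  obtain ⟨F, hF, hAF⟩ := hA
  have h1 : ∀ n, ∃ S : Finset (List Bool), wt S ≤ (2 : ENNReal)⁻¹ ^ n ∧
      ∀ x ∈ ⋃ k ∈ Finset.range (n + 1), F k, ∃ s ∈ S, x ∈ cyl s := by
    intro n
    refine cover_closed ?_ ?_ n
    · exact isClosed_biUnion_finset fun k _ => (hF k).1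
    · exact (measure_biUnion_null_iff (Finset.countable_toSet _)).2 fun k _ => (hF k).2
  choose c hc1 hc2 using h1
  refine ⟨c, hc1, ?_⟩
  rintro x hx ⟨N, hN⟩
  obtain ⟨m, hm⟩ := mem_iUnion.1 (hAF hx)
  obtain ⟨s, hs, hxs⟩ := hc2 (max N m) x (mem_iUnion₂.2 ⟨m, Finset.mem_range.2 (by omega), hm⟩)
  obtain ⟨i, v, hv, hne⟩ := hN (max N m) (le_max_left _ _) s hs
  exact hne (hxs i v hv)

theorem nonE_le {K : Type} (h : NonNull K) : nonE ≤ #K := by
  obtain ⟨r, hr⟩ := h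
  have h1 : ¬ IsE (range r) := by
    intro hE
    obtain ⟨c, hc1, hc2⟩ := small_of_isE hE
    obtain ⟨k, hk⟩ := hr c hc1
    exact hc2 _ (mem_range_self k) hk
  exact (csInf_le' ⟨range r, h1, rfl⟩ : nonE ≤ #(range r)).trans mk_range_le

theorem isE_singleton (x : ℕ → Bool) : IsE {x} := by
  refine ⟨fun _ => {x}, fun _ => ⟨isClosed_singleton, ?_⟩, fun y hy => mem_iUnion.2 ⟨0, hy⟩⟩
  have h1 : ∀ L : ℕ, lam {x} ≤ (2 : ENNReal)⁻¹ ^ L := by
    intro L
    rw [← lam_cyl L fun i => x i]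
    refine measure_mono ?_
    rintro y rfl
    exact fun _ => rfl
  have h2 : Tendsto (fun L : ℕ => (2 : ENNReal)⁻¹ ^ L) atTop (𝓝 0) :=
    ENNReal.tendsto_pow_atTop_nhds_zero_of_lt_one (by
      rw [ENNReal.inv_lt_one]; exact ENNReal.one_lt_two)
  exact le_antisymm (ge_of_tendsto' h2 h1) bot_le

theorem lt_covE {K : Type} (h : NoCover K) : #K < covE := by
  have hne : {κ : Cardinal.{0} | ∃ 𝒜 : Set (Set (ℕ → Bool)), (∀ A ∈ 𝒜, IsE A) ∧ ⋃₀ 𝒜 = Set.univ ∧
      #𝒜 = κ}.Nonempty := by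
    refine ⟨_, range (fun x : ℕ → Bool => ({x} : Set (ℕ → Bool))), ?_, ?_, rfl⟩
    · rintro _ ⟨x, rfl⟩
      exact isE_singleton x
    · exact eq_univ_of_forall fun x => ⟨{x}, mem_range_self x, rfl⟩
  obtain ⟨𝒜, h𝒜, hcov, hcard⟩ := csInf_mem hne
  change #𝒜 = covE at hcard
  rw [← hcard]
  by_contra hcon
  push Not at hcon
  have hne𝒜 : Nonempty 𝒜 := by
    have h1 : (fun _ => false : ℕ → Bool) ∈ ⋃₀ 𝒜 := by rw [hcov]; exact mem_univ _
    obtain ⟨A, hA, _⟩ := h1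
    exact ⟨⟨A, hA⟩⟩
  obtain ⟨e⟩ := (Cardinal.le_def _ _).1 hcon
  obtain ⟨g, hg⟩ : ∃ g : K → 𝒜, Function.Surjective g :=
    ⟨Function.invFun e, Function.invFun_surjective e.injective⟩
  choose c hc1 hc2 using fun k => small_of_isE (h𝒜 (g k).1 (g k).2)
  obtain ⟨x, hx⟩ := h c hc1
  have h1 : x ∈ ⋃₀ 𝒜 := by rw [hcov]; exact mem_univ _
  obtain ⟨A, hA, hxA⟩ := h1
  obtain ⟨k, hk⟩ := hg ⟨A, hA⟩
  refine hc2 k x ?_ (hx k)
  rw [hk]
  exact hxA

/-! ### The invariants of eventual matching -/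

theorem div_of_divergent {b : ℕ → ℕ} (hb : Divergent b) : Div b := by
  refine ⟨fun j => Nat.one_le_iff_ne_zero.1 (hb.1 j), fun M => ?_⟩
  have h1 : Tendsto (fun n => ∑ j ∈ Finset.range n, (1 : ℝ) / b j) atTop atTop :=
    (not_summable_iff_tendsto_nat_atTop_of_nonneg fun j => by positivity).1 hb.2
  obtain ⟨n, hn⟩ := (h1.eventually (eventually_ge_atTop (M : ℝ))).exists
  have h2 : ∀ j v, (List.ofFn fun i : Fin n => b i)[j]? = some v → b j = v := by
    intro j v hv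
    obtain ⟨hi, h1⟩ := List.getElem?_eq_some_iff.1 hv
    rw [List.getElem_ofFn] at h1
    exact h1
  refine ⟨List.ofFn fun i : Fin n => b i, ?_, h2⟩
  rw [sum_take b _ h2, List.length_ofFn]
  exact hn

theorem bdd_of {K : Type} (h : AllBounded K) {b : ℕ → ℕ} (hb : Divergent b) {F : Set (ℕ → ℕ)}
    (hF : F ⊆ Prd b) (hFK : #F ≤ #K) : Bdd b F := by
  have hd := div_of_divergent hb
  rcases F.eq_empty_or_nonempty with rfl | hne
  · refine ⟨id, fun _ => 0, ⟨rfl, fun n => Nat.lt_succ_self n⟩,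
      fun j => Nat.pos_of_ne_zero (hd.1 j), fun f hf => absurd hf (notMem_empty f)⟩
  · have : Nonempty F := hne.to_subtype
    obtain ⟨e⟩ := (Cardinal.le_def _ _).1 hFK
    obtain ⟨g, hg⟩ : ∃ g : K → F, Function.Surjective g :=
      ⟨Function.invFun e, Function.invFun_surjective e.injective⟩
    obtain ⟨a, h', ha, hh, hm⟩ := h b hd (fun k => (g k).1) fun k => hF (g k).2
    refine ⟨a, h', ha, hh, fun f hf => ?_⟩
    obtain ⟨k, hk⟩ := hg ⟨f, hf⟩
    have h1 := hm k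
    rwa [hk] at h1

theorem not_bdd_prd {b : ℕ → ℕ} (h0 : ∀ k, 1 ≤ b k) (h2 : ∀ᶠ k in atTop, 2 ≤ b k) :
    ¬ Bdd b (Prd b) := by
  rintro ⟨a, h, ha, hh, hm⟩
  obtain ⟨N, hN⟩ := eventually_atTop.1 h2
  let f : ℕ → ℕ := fun k => if h k = 0 ∧ N ≤ k then 1 else 0
  have hf : f ∈ Prd b := by
    intro k
    show f k < b k
    simp only [f]
    split_ifs with h1
    · exact lt_of_lt_of_le Nat.one_lt_two (hN k h1.2)
    · exact h0 k
  obtain ⟨M, hM⟩ := hm f hf
  have hmono : ∀ n, n ≤ a n := by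
    intro n
    induction n with
    | zero => exact Nat.zero_le _
    | succ n ih => exact lt_of_le_of_lt ih (ha.2 n)
  obtain ⟨j, h1, h2, h3⟩ := hM (max M N) (le_max_left _ _)
  have hjN : N ≤ j := (le_max_right _ _).trans ((hmono _).trans h1)
  simp only [f] at h3
  split_ifs at h3 with h4
  · omega
  · exact h4 ⟨h3.symm, hjN⟩

theorem lt_beq {K : Type} (h : AllBounded K) {b : ℕ → ℕ} (hb : Divergent b)
    (h2 : ∀ᶠ k in atTop, 2 ≤ b k) : #K < beq b := by
  have hne : {κ : Cardinal.{0} | ∃ F ⊆ Prd b, ¬ Bdd b F ∧ #F = κ}.Nonempty :=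
    ⟨_, Prd b, Subset.rfl, not_bdd_prd hb.1 h2, rfl⟩
  obtain ⟨F, hF, hFb, hcard⟩ := csInf_mem hne
  change #F = beq b at hcard
  rw [← hcard]
  by_contra hcon
  exact hFb (bdd_of h hb hF (not_lt.1 hcon))

theorem deq_le {K : Type} (h : Cofinal K) {b : ℕ → ℕ} (hb : Divergent b) : deq b ≤ #K := by
  obtain ⟨a, h', ha, hh, hm⟩ := h b (div_of_divergent hb)
  refine (csInf_le' ⟨range fun k => (a, h' k), ?_, ?_, rfl⟩ :
    deq b ≤ #(range fun k => (a, h' k))).trans mk_range_le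
  · rintro _ ⟨k, rfl⟩
    exact ⟨ha, hh k⟩
  · intro f hf
    obtain ⟨k, hk⟩ := hm f hf
    exact ⟨_, mem_range_self k, hk⟩

end Pool.Agent.R593.Eq
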